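import Pool.Agent.TH85.ZC.Main

/-!
# Voisin's conjecture: zero-cycles which commute with the kernel of the Albanese map

`𝒱` is a class of smooth projective geometrically irreducible varieties over the field `k` closed
under products (for the problem: all smooth projective varieties over `k = ℂ`), `C` the Chow groups
with rational coefficients (in the form of their formal properties, `IsChowProj`), `H` the
cohomology with complex coefficients (`IsWeilProj`) and `D` its Hodge structures (`HodgeData`).
`HasZeroCycleTheory D` records the classical facts which are used: the usual properties of the Hodge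
structures with the theorem of Lefschetz on `(1,1)`-classes; the projector onto the transcendental
part of the motive of a surface (`IsTranscendental`; Murre; Kahn, Murre and Pedrini); the
decomposition theorem of Bloch and Srinivas; and the injectivity of the Abel-Jacobi map on divisor
classes (`HasCycleFacts`).

For a surface `S` with `p_g ≤ 1` the case `n = 2` of the conjecture of Voisin is `a × b = b × a` in
`CH_0(S × S)` for all `a`, `b` in the kernel `T(S)` of the Albanese map. Let `a ∈ T(S)` be a cycle
with `a × b = b × a` for all `b ∈ T(S)` (on a surface with any `p_g`).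

Theorem. Let `Z ∈ CH^2(S × S)` with `[Z]^* = 0` on `H^{2,0}(S)`, and `P ∈ CH^2(S × S)` arbitrary.
* `Z_* a = (Z^t)_* a`, where `Z^t` is the transpose of `Z`.
* `P_* Z_* a = Z_* (P^t)_* a`; so the `Z` commute with each other on `a`, and they kill the
  commutators `P_* Q_* a - Q_* P_* a`.
* If `f` is an automorphism of `S` which acts as the identity on `H^{2,0}(S)`, then
  `f_* f_* a = a`.

So if a surface `S` of geometric genus one satisfies the conjecture of Voisin for `n = 2`, then the
square of each symplectic automorphism of `S` (also of infinite order) acts as the identity on the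
kernel of the Albanese map.
-/

open CategoryTheory AlgebraicGeometry

set_option autoImplicit false

universe u v

namespace Pool.Agent.Results.MP_83b46e_ag.CommutingCycles

open Pool.Agent.H914 Pool.Agent.W492.BB Pool.Agent.W550.Corr Pool.Agent.TH133
  Pool.Agent.TH85.ZC

/-- Let `S` be a surface and `a` in the kernel of the Albanese map such that `a × b = b × a` in
`CH_0(S × S)` for all `b` in this kernel. Let `Z ∈ CH^2(S × S)` with `[Z]^* = 0` on `H^{2,0}(S)`.
Then `Z_* a = (Z^t)_* a`, and `P_* Z_* a = Z_* (P^t)_* a` for all `P ∈ CH^2(S × S)`. If `f` is an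
automorphism of `S` which acts as the identity on `H^{2,0}(S)` then `f_* f_* a = a`. -/
theorem result {k : Type u} [Field k] {𝒱 : VarClass k} (C : TheoryData.{u, v, 0} 𝒱 ℚ)
    [IsChowProj C] (H : WeilTheoryData.{u, v, 0} C ℂ) [IsWeilProj H] (D : HodgeData H)
    (hD : HasZeroCycleTheory D) (S : 𝒱.Obj) (hS : S.dim = 2) (a : C.A S)
    (ha : AlbaneseKer H a) (hab : ∀ b : C.A S, AlbaneseKer H b → C.ext a b = C.ext b a) :
    (∀ Z : C.A (S.prod S), C.Deg 2 Z → D.KillsHolomorphic Z 2 →
      C.act Z a = C.act (tp C Z) a) ∧
    (∀ Z P : C.A (S.prod S), C.Deg 2 Z → C.Deg 2 P → D.KillsHolomorphic Z 2 →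
      C.act P (C.act Z a) = C.act Z (C.act (tp C P) a)) ∧
    (∀ f g : S ⟶ S, f ≫ g = 𝟙 S → g ≫ f = 𝟙 S → D.KillsHolomorphic (C.graph f - dg C S) 2 →
      C.push f (C.push f a) = a) := by
  have h : Commutes H a := ⟨ha, hab⟩
  exact ⟨fun Z hZ hZ0 => h.act_tp hD hS hZ hZ0, fun Z P hZ hP hZ0 => h.act_act hD hS hZ hP hZ0,
    fun f g hfg hgf hf => h.push_push hD hS hfg hgf hf⟩

end Pool.Agent.Results.MP_83b46e_ag.CommutingCycles
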